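import Mathlib
import Pool.Agent.N776.CV.Sep
import Pool.Agent.N265.CV.HtcB

/-!
# Functions on curves: primes at which they have poles, heights of values

Used for the Lang-Silverman bound at the closed points in linear systems.
-/

set_option autoImplicit false

namespace Pool.Agent.N751.LS

open NumberField IsDedekindDomain Module Polynomial Height
open Pool.Agent.N776.CV (exists_bd map_poly)
open Pool.Agent.N265.CV (cf cf_ne_zero logHeight_root)

section

variable {K A : Type} [Field K] [NumberField K] [CommRing A]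
  [Algebra K A] [Algebra K[X] A] [IsScalarTower K K[X] A] [Module.Finite K[X] A]

/-- bounded denominators of finitely many elements -/
theorem exists_bds (s : Finset A) :
    ∃ d : ℕ, d ≠ 0 ∧ ∀ (M : Type) [Field M] [NumberField M] [Algebra K M] (φ : A →ₐ[K] M)
      (w : HeightOneSpectrum (𝓞 M)), (d : 𝓞 M) ∉ w.asIdeal →
      w.valuation M (φ (algebraMap K[X] A X)) ≤ 1 → ∀ a ∈ s, w.valuation M (φ a) ≤ 1 := by
  classical
  choose d hd h using fun a : A => exists_bd (K := K) a
  refine ⟨∏ a ∈ s, d a, Finset.prod_ne_zero_iff.2 fun a _ => hd a, ?_⟩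
  intro M _ _ _ φ w hw hX a ha
  refine h a M φ w (fun hmem => hw ?_) hX
  obtain ⟨c, hc⟩ := Finset.dvd_prod_of_mem d ha
  rw [hc]
  push_cast
  exact Ideal.mul_mem_right _ _ hmem

/-- a prime at which the point meets a pole of `F / G` -/
theorem pole_val {u : ℕ} (g : Fin u → A) (hmax : (Ideal.span (Set.range g)).IsMaximal) {F G : A}
    (hF : F ∉ Ideal.span (Set.range g)) (hG : G ∈ Ideal.span (Set.range g)) :
    ∃ d : ℕ, d ≠ 0 ∧ ∀ (M : Type) [Field M] [NumberField M] [Algebra K M] (φ : A →ₐ[K] M)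
      (w : HeightOneSpectrum (𝓞 M)), (d : 𝓞 M) ∉ w.asIdeal →
      w.valuation M (φ (algebraMap K[X] A X)) ≤ 1 → (∀ l, w.valuation M (φ (g l)) < 1) →
      w.valuation M (φ G) < 1 ∧ w.valuation M (φ F) = 1 := by
  classical
  obtain ⟨c, hc⟩ := Ideal.mem_span_range_iff_exists_fun.1 hG
  obtain ⟨y, i, hi, hyi⟩ := hmax.exists_inv hF
  obtain ⟨c', hc'⟩ := Ideal.mem_span_range_iff_exists_fun.1 hi
  obtain ⟨d, hd, h⟩ := exists_bds (K := K) (Finset.univ.image c ∪ Finset.univ.image c' ∪ {y, F})
  refine ⟨d, hd, ?_⟩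
  intro M _ _ _ φ w hw hX hl
  have h0 := h M φ w hw hX
  have hsum : ∀ b : Fin u → A, (∀ l, w.valuation M (φ (b l)) ≤ 1) →
      w.valuation M (φ (∑ l, b l * g l)) < 1 := by
    intro b hb
    rw [map_sum]
    refine Valuation.map_sum_lt _ one_ne_zero fun l _ => ?_
    rw [map_mul, map_mul]
    exact lt_of_le_of_lt (mul_le_of_le_one_left' (hb l)) (hl l)
  have h1 : w.valuation M (φ G) < 1 := by
    rw [← hc]
    exact hsum c fun l => h0 _ (by simp)
  have h2 : w.valuation M (φ i) < 1 := by
    rw [← hc']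
    exact hsum c' fun l => h0 _ (by simp)
  have hy := h0 y (by simp)
  have hF1 := h0 F (by simp)
  refine ⟨h1, le_antisymm hF1 ?_⟩
  by_contra hlt
  rw [not_le] at hlt
  have h3 : w.valuation M (φ (y * F)) < 1 := by
    rw [map_mul, map_mul]
    exact lt_of_le_of_lt (mul_le_of_le_one_left' hy) hlt
  have h4 : φ (y * F) + φ i = 1 := by rw [← map_add, hyi, map_one]
  have h5 := (w.valuation M).map_add (φ (y * F)) (φ i)
  rw [h4, map_one] at h5
  exact absurd h5 (not_le.2 (max_lt h3 h2))

end

section height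

variable {K : Type} [Field K] [NumberField K]

/-- a root of a polynomial -/
theorem ht_root_le {M : Type} [Field M] [NumberField M] (D : ℕ) (Q : M[X]) (hQ : Q ≠ 0)
    (hD : Q.natDegree ≤ D) (y : M) (hy : Q.IsRoot y) :
    logHeight₁ y ≤ finrank ℚ M * Real.log ((D + 1 : ℕ) : ℝ) + logHeight (cf D Q) := by
  obtain ⟨R, hR⟩ := dvd_iff_isRoot.2 hy
  have hR0 : R ≠ 0 := by
    rintro rfl
    rw [mul_zero] at hR
    exact hQ hR
  have h := logHeight_root D y R hR0 (by rw [← hR]; exact hD)
  rw [← hR, NumberField.totalWeight_eq_finrank] at h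
  have h1 : 0 ≤ logHeight (cf D R) := logHeight_nonneg _
  linarith

/-- the roots of a polynomial over `K` have bounded absolute height -/
theorem ht_poly_root (p : K[X]) (hp : p ≠ 0) : ∃ C : ℝ, 0 ≤ C ∧
    ∀ (M : Type) [Field M] [NumberField M] [Algebra K M] (t : M), aeval t p = 0 →
      logHeight₁ t ≤ finrank ℚ M * C := by
  refine ⟨Real.log ((p.natDegree + 1 : ℕ) : ℝ) + logHeight (cf p.natDegree p), by
    have h1 : 0 ≤ logHeight (cf p.natDegree p) := logHeight_nonneg _
    have h2 := Real.log_natCast_nonneg (p.natDegree + 1)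
    linarith, ?_⟩
  intro M _ _ _ t ht
  haveI : FiniteDimensional K M := Module.Finite.of_restrictScalars_finite ℚ K M
  have h := ht_root_le (M := M) p.natDegree (p.map (algebraMap K M))
    ((Polynomial.map_ne_zero_iff (algebraMap K M).injective).2 hp) natDegree_map_le t
    (by rw [IsRoot.def, eval_map_algebraMap]; exact ht)
  have h3 : logHeight (cf p.natDegree (p.map (algebraMap K M))) =
      finrank K M * logHeight (cf p.natDegree p) := by
    rw [← Pool.Agent.Helper259.HtExt.logHeight_ext]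
    congr 1
    funext k
    simp only [cf, coeff_map]
  rw [h3] at h
  have h4 : (finrank K M : ℝ) * logHeight (cf p.natDegree p) ≤
      finrank ℚ M * logHeight (cf p.natDegree p) := by
    refine mul_le_mul_of_nonneg_right ?_ (logHeight_nonneg _)
    have h5 : finrank ℚ K * finrank K M = finrank ℚ M := finrank_mul_finrank ℚ K M
    have h6 : 0 < finrank ℚ K := finrank_pos
    exact_mod_cast (by nlinarith : finrank K M ≤ finrank ℚ M)
  rw [mul_add]
  linarith

/-- the height of the vector of the powers -/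
theorem ht_pow_vec {M : Type} [Field M] [NumberField M] (m : ℕ) (t : M) :
    logHeight (fun i : Fin (m + 1) => t ^ (i : ℕ)) ≤ m * logHeight₁ t := by
  have hx0 : (![t, 1] : Fin 2 → M) ≠ 0 := by
    intro h
    have := congrFun h 1
    simp at this
  have h1 : logHeight (fun I : Fin m → Fin 2 => ∏ j, (![t, 1] : Fin 2 → M) (I j)) =
      m * logHeight₁ t := by
    rw [logHeight_fun_prod_eq (x := fun (_ : Fin m) => (![t, 1] : Fin 2 → M)) (fun _ => hx0)]
    simp [logHeight₁_eq_logHeight]
  rw [← h1]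
  have hmem : ∀ i : Fin (m + 1), ∃ I : Fin m → Fin 2,
      t ^ (i : ℕ) = ∏ j, (![t, 1] : Fin 2 → M) (I j) := by
    intro i
    refine ⟨fun j => if (j : ℕ) < i then 0 else 1, ?_⟩
    have h2 : ∀ j : Fin m, (![t, 1] : Fin 2 → M) (if (j : ℕ) < (i : ℕ) then 0 else 1) =
        if (j : ℕ) < (i : ℕ) then t else 1 := by
      intro j
      split_ifs <;> simp
    rw [Finset.prod_congr rfl fun j _ => h2 j, Finset.prod_ite, Finset.prod_const,
      Finset.prod_const_one, mul_one]
    congr 1
    have h3 := i.2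
    rw [Fin.card_filter_val_lt]
    omega
  have hv : ∀ v : AbsoluteValue M ℝ, ⨆ i : Fin (m + 1), v (t ^ (i : ℕ)) ≤
      ⨆ I : Fin m → Fin 2, v (∏ j, (![t, 1] : Fin 2 → M) (I j)) := by
    intro v
    refine ciSup_le fun i => ?_
    obtain ⟨I, hI⟩ := hmem i
    rw [hI]
    exact Finite.le_ciSup_of_le I le_rfl
  have h := Pool.Agent.N265.CV.logHeight_le_of (K := M)
    (x := fun i : Fin (m + 1) => t ^ (i : ℕ))
    (y := fun I : Fin m → Fin 2 => ∏ j, (![t, 1] : Fin 2 → M) (I j)) (by
      intro h
      have := congrFun h 0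
      simp at this) (by
      intro h
      have := congrFun h (fun _ => 1)
      simp at this) 1 le_rfl (fun v => by
        rw [Nat.cast_one, one_mul]
        exact hv v) (fun v _ => hv v)
  simpa using h

/-- the height of a root of an equation whose coefficients are polynomials in `t` -/
theorem ht_rel (k m : ℕ) (r : ℕ → K[X]) (hr : ∀ i, (r i).natDegree ≤ m) : ∃ C : ℝ, 0 ≤ C ∧
    ∀ (M : Type) [Field M] [NumberField M] [Algebra K M] (t y : M), aeval t (r k) ≠ 0 →
      ∑ i ∈ Finset.range (k + 1), aeval t (r i) * y ^ i = 0 →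
      logHeight₁ y ≤ m * logHeight₁ t + finrank ℚ M * C := by
  classical
  set a : Fin (k + 1) × Fin (m + 1) → K := fun q => (r q.1).coeff q.2 with ha
  set C1 : ℝ := logHeight a with hC1
  have hC10 : 0 ≤ C1 := logHeight_nonneg _
  refine ⟨Real.log ((k + 1 : ℕ) : ℝ) + (Real.log ((m + 1 : ℕ) : ℝ) + C1), by
    have h2 := Real.log_natCast_nonneg (k + 1)
    have h3 := Real.log_natCast_nonneg (m + 1)
    linarith, ?_⟩
  intro M _ _ _ t y hk hy
  haveI : FiniteDimensional K M := Module.Finite.of_restrictScalars_finite ℚ K M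
  set Q : M[X] := ∑ i ∈ Finset.range (k + 1), C (aeval t (r i)) * X ^ i with hQ
  have hcoeff : ∀ i, Q.coeff i = if i < k + 1 then aeval t (r i) else 0 := by
    intro i
    rw [hQ, finsetSum_coeff]
    simp only [coeff_C_mul, coeff_X_pow, mul_ite, mul_one, mul_zero]
    rw [Finset.sum_ite_eq]
    simp [Finset.mem_range]
  have hQ0 : Q ≠ 0 := by
    intro h
    have h1 := hcoeff k
    rw [h, coeff_zero, if_pos (Nat.lt_succ_self k)] at h1
    exact hk h1.symm
  have hQd : Q.natDegree ≤ k := by
    rw [natDegree_le_iff_coeff_eq_zero]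
    intro i hi
    rw [hcoeff, if_neg (by omega)]
  have hroot : Q.IsRoot y := by
    rw [IsRoot.def, hQ, eval_finsetSum]
    simpa using hy
  have h1 := ht_root_le k Q hQ0 hQd y hroot
  have e1 : cf k Q = fun j : Fin (k + 1) => ∑ i : Fin (m + 1),
      (fun q => algebraMap K M (a q)) (j, i) * (fun i : Fin (m + 1) => t ^ (i : ℕ)) i := by
    funext j
    simp only [cf]
    rw [hcoeff, if_pos j.2, aeval_eq_sum_range' (n := m + 1) (by have := hr j; omega)]
    rw [Finset.sum_range]
    refine Finset.sum_congr rfl fun i _ => ?_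
    rw [Algebra.smul_def]
  have h2 := logHeight_linearMap_apply_le (K := M) (fun q => algebraMap K M (a q))
    (fun i : Fin (m + 1) => t ^ (i : ℕ))
  rw [← e1, Pool.Agent.Helper259.HtExt.logHeight_ext, NumberField.totalWeight_eq_finrank] at h2
  have h3 := ht_pow_vec m t
  have h4 : (finrank K M : ℝ) * C1 ≤ finrank ℚ M * C1 := by
    refine mul_le_mul_of_nonneg_right ?_ hC10
    have h5 : finrank ℚ K * finrank K M = finrank ℚ M := finrank_mul_finrank ℚ K M
    have h6 : 0 < finrank ℚ K := finrank_pos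
    exact_mod_cast (by nlinarith : finrank K M ≤ finrank ℚ M)
  have h5 : (Nat.card (Fin (m + 1)) : ℝ) = ((m + 1 : ℕ) : ℝ) := by simp
  rw [h5] at h2
  rw [mul_add, mul_add]
  linarith

end height

end Pool.Agent.N751.LS
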