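import Mathlib
import Pool.Agent.N751.LS.Pole
import Pool.Agent.Results.MP_651af7_nt.LinearSystemsAllCurves

/-!
# Many poles at the closed points in linear systems

From the theorem of helper753 (project CV) on the truncated counting functions of the closed points
in the linear systems `V_n`.
-/

set_option autoImplicit false
set_option linter.unusedSectionVars false

namespace Pool.Agent.N751.LS

open Polynomial IsDedekindDomain NumberField Module Height
open scoped LinearAlgebra.Projectivization TensorProduct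
open Pool.Agent.Results.MP_651af7_nt.LinearSystemsAllCurves (coord member IsZero box truncated)
open Pool.Agent.N776.CV (map_poly)

/-- the function `F / G` satisfies an equation of degree at most `m` in `t` over `K` -/
def DegreeLe (K : Type) {A : Type} [Field K] [CommRing A] [Algebra K[X] A] (m : ℕ) (F G : A) : Prop :=
  ∃ (k : ℕ) (r : ℕ → K[X]), (∀ i, (r i).natDegree ≤ m) ∧ r k ≠ 0 ∧
    ∑ i ∈ Finset.range (k + 1), algebraMap K[X] A (r i) * F ^ i * G ^ (k - i) = 0

theorem prime_factor {M : Type} [Field M] [NumberField M] (w : HeightOneSpectrum (𝓞 M)) {d : ℕ}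
    (hd : d ≠ 0) (h : ∀ p ∈ d.primeFactors, (p : 𝓞 M) ∉ w.asIdeal) : (d : 𝓞 M) ∉ w.asIdeal := by
  intro hmem
  have hp := w.isPrime
  rw [← Nat.prod_factorization_pow_eq_self hd, Finsupp.prod, Nat.cast_prod,
    Ideal.IsPrime.prod_mem_iff] at hmem
  obtain ⟨p, hpd, hpm⟩ := hmem
  rw [Nat.support_factorization] at hpd
  rw [Nat.cast_pow] at hpm
  exact h p hpd (hp.mem_of_pow_mem _ hpm)

/-- **many poles** -/
theorem many_poles (K A : Type) [Field K] [NumberField K] [CommRing A] [IsDomain A]
    [Algebra K A] [Algebra K[X] A] [IsScalarTower K K[X] A] [Module.Finite K[X] A]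
    [FaithfulSMul K[X] A] (hA : IsDomain (AlgebraicClosure K ⊗[K] A)) (N : ℕ)
    (e : Basis (Fin N) K[X] A) (he : ∃ i, e i = 1) (n : ℕ) (hn : 1 ≤ n) :
    ∃ E : Set (ℙ K (Fin (N * (n + 1)) → K)),
      (∃ c : ℝ, ∀ B : ℝ, 1 ≤ B → (E ∩ box K (N * (n + 1)) B).Finite ∧
        ((E ∩ box K (N * (n + 1)) B).ncard : ℝ) ≤
          c * B ^ ((finrank ℚ K : ℝ) * (N * (n + 1) : ℕ)) * Real.exp (-√(Real.log B))) ∧
      ∀ (m : ℕ) (F G : A) (𝔭 : Ideal A), DegreeLe K m F G → 𝔭.IsMaximal →
        finrank K (A ⧸ 𝔭) ≤ 2 * n + 1 → F ∉ 𝔭 → G ∈ 𝔭 → ∃ H : ℝ,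
        ∀ (M : Type) [Field M] [NumberField M] [Algebra K M] (x : A →ₐ[K] M)
          (P : ℙ K (Fin (N * (n + 1)) → K)), P ∉ E → IsZero e n P x →
          H ≤ Pool.Agent.Results.MP_651af7_nt.LinearSystemsAllCurves.height K A
            (x (coord K A)) → x G ≠ 0 →
          ∃ W : Finset (HeightOneSpectrum (𝓞 M)), (∀ w ∈ W, 1 < w.valuation M (x F / x G)) ∧
            logHeight₁ (x F / x G) ≤ (4 * (m * N + 1) : ℝ) *
              ∑ w ∈ W, Real.log (Ideal.absNorm w.asIdeal) := by
  classical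
  obtain ⟨n₀, hres⟩ := Pool.Agent.Results.MP_651af7_nt.LinearSystemsAllCurves.result K A hA N e he
  obtain ⟨E, hE, hI, -⟩ := hres n hn
  refine ⟨E, hE, ?_⟩
  intro m F G 𝔭 hdeg hmax hfr hF hG
  have hN : 1 ≤ N := by
    obtain ⟨i, -⟩ := he
    have := i.2
    omega
  have hNr : finrank K[X] A = N := by rw [finrank_eq_card_basis e, Fintype.card_fin]
  have hnoe : IsNoetherianRing A := isNoetherian_of_isNoetherianRing_of_finite K[X] A |> fun h =>
    isNoetherian_of_tower K[X] h
  obtain ⟨u, g, hg⟩ := Submodule.fg_iff_exists_fin_generating_family.1 (hnoe.noetherian 𝔭)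
  have hg' : Ideal.span (Set.range g) = 𝔭 := hg
  obtain ⟨d0, hd0, hval⟩ := pole_val (K := K) g (by rw [hg']; exact hmax) (F := F) (G := G)
    (by rw [hg']; exact hF) (by rw [hg']; exact hG)
  obtain ⟨c1, h1⟩ := hI 1 (fun _ => u) (fun _ => g) (fun _ => by rw [hg']; exact hmax)
    (fun i j hij => absurd (Subsingleton.elim i j) hij) (fun _ => by rw [hg']; exact hfr)
    d0.primeFactors (fun l hl => Nat.prime_of_mem_primeFactors hl) (1 / 2) (by norm_num)
  obtain ⟨k, r, hr, hrk, hrel⟩ := hdeg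
  obtain ⟨C2, hC2, h2⟩ := ht_poly_root (r k) hrk
  obtain ⟨C3, hC3, h3⟩ := ht_rel k m r hr
  refine ⟨4 * |c1| + C2 + C3 + 1, ?_⟩
  intro M _ _ _ x P hP hz hH hxG
  set t := x (coord K A) with ht
  set h := Pool.Agent.Results.MP_651af7_nt.LinearSystemsAllCurves.height K A t with hh
  have hM : (1 : ℝ) ≤ finrank ℚ M :=
    Pool.Agent.Results.MP_651af7_nt.LinearSystemsAllCurves.deg_ge M
  have hM0 : (0 : ℝ) < finrank ℚ M := by linarith
  have hN1 : (1 : ℝ) ≤ N := by exact_mod_cast hN
  have hht : logHeight₁ t = finrank ℚ M * (N * h) := by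
    rw [hh]
    unfold Pool.Agent.Results.MP_651af7_nt.LinearSystemsAllCurves.height
    rw [hNr]
    field_simp
  have hc1 := abs_nonneg c1
  have hker : ∀ j : Fin 1, RingHom.ker x ≠ Ideal.span (Set.range ((fun _ : Fin 1 => g) j)) := by
    intro _ hk
    apply hxG
    have : G ∈ RingHom.ker x := by
      rw [hk]
      show G ∈ Ideal.span (Set.range g)
      rw [hg']
      exact hG
    exact this
  have h4 := h1 M x P hP hz hker
  -- the degree of the closed point
  have hdp : (1 : ℝ) ≤ ∑ j : Fin 1, (finrank K (A ⧸ Ideal.span (Set.range ((fun _ : Fin 1 => g) j))) : ℝ) := by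
    rw [Fin.sum_univ_one]
    have hpos : 0 < finrank K (A ⧸ Ideal.span (Set.range g)) := by
      obtain ⟨L, _, _, _, ψ, -, -, g3⟩ := Pool.Agent.N753.DR.exists_field (K := K)
        (Ideal.span (Set.range g)) (by rw [hg']; exact hmax)
      rw [← g3]
      haveI : FiniteDimensional K L := Module.Finite.of_restrictScalars_finite ℚ K L
      exact finrank_pos
    exact_mod_cast hpos
  -- the set of primes
  have hex : ∃ l, x (g l) ≠ 0 := by
    by_contra hcon
    push Not at hcon
    apply hker 0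
    have hm : (Ideal.span (Set.range g)).IsMaximal := by rw [hg']; exact hmax
    refine (hm.eq_of_le (RingHom.ker_ne_top _) ?_).symm
    rw [Ideal.span_le]
    rintro _ ⟨l, rfl⟩
    exact hcon l
  obtain ⟨l0, hl0⟩ := hex
  have hfin : {w : HeightOneSpectrum (𝓞 M) | (∀ p ∈ d0.primeFactors, (p : 𝓞 M) ∉ w.asIdeal) ∧
      w.valuation M (x (coord K A)) ≤ 1 ∧ ∃ _j : Fin 1, ∀ l, w.valuation M (x (g l)) < 1}.Finite := by
    refine (Pool.Agent.Y729.RV.val_fin hl0).subset ?_
    rintro w ⟨-, -, -, hj⟩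
    exact hj l0
  have htr : finrank ℚ M * truncated (K := K) d0.primeFactors (fun _ : Fin 1 => u) (fun _ => g) x =
      ∑ w ∈ hfin.toFinset, Real.log (Ideal.absNorm w.asIdeal) := by
    unfold Pool.Agent.Results.MP_651af7_nt.LinearSystemsAllCurves.truncated
    rw [mul_div_cancel₀ _ hM0.ne', finsum_eq_sum_of_support_subset (s := hfin.toFinset)]
    · refine Finset.sum_congr rfl fun w hw => ?_
      rw [Set.Finite.mem_toFinset] at hw
      exact if_pos hw
    · intro w hw
      rw [Function.mem_support] at hw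
      rw [Set.Finite.coe_toFinset]
      by_contra hcon
      exact hw (if_neg hcon)
  refine ⟨hfin.toFinset, ?_, ?_⟩
  · intro w hw
    rw [Set.Finite.mem_toFinset] at hw
    obtain ⟨g1, g2, -, g3⟩ := hw
    obtain ⟨k1, k2⟩ := hval M x w (prime_factor w hd0 g1) g2 g3
    have hv0 : w.valuation M (x G) ≠ 0 := (Valuation.ne_zero_iff _).2 hxG
    rw [map_div₀, k2, one_div]
    exact (one_lt_inv₀ (zero_lt_iff.2 hv0)).2 k1
  · set T := truncated (K := K) d0.primeFactors (fun _ : Fin 1 => u) (fun _ => g) x with hT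
    rw [← htr]
    have hh0 : 0 ≤ h := by linarith
    have h5 : (1 / 4 : ℝ) * h ≤ T := by
      have h6 : (1 / 2 : ℝ) * h ≤ T + c1 := by
        refine le_trans ?_ h4
        exact mul_le_mul_of_nonneg_right (by linarith) hh0
      have h7 := le_abs_self c1
      linarith
    have hrk' : aeval t (r k) ≠ 0 := by
      intro h0
      have h6 := h2 M t h0
      rw [hht] at h6
      have h7 : (N : ℝ) * h ≤ C2 := le_of_mul_le_mul_left h6 hM0
      nlinarith
    have hrel' : ∑ i ∈ Finset.range (k + 1), aeval t (r i) * (x F / x G) ^ i = 0 := by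
      have h6 := congrArg x hrel
      rw [map_sum, map_zero] at h6
      have h7 : ∑ i ∈ Finset.range (k + 1), aeval t (r i) * (x F / x G) ^ i =
          (∑ i ∈ Finset.range (k + 1), x (algebraMap K[X] A (r i) * F ^ i * G ^ (k - i))) /
            x G ^ k := by
        rw [Finset.sum_div]
        refine Finset.sum_congr rfl fun i hi => ?_
        have hik : i ≤ k := Nat.lt_succ_iff.1 (Finset.mem_range.1 hi)
        rw [map_mul, map_mul, map_pow, map_pow, map_poly, div_pow]
        show aeval t (r i) * (x F ^ i / x G ^ i) =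
          aeval t (r i) * x F ^ i * x G ^ (k - i) / x G ^ k
        have e1 : x G ^ k = x G ^ i * x G ^ (k - i) := by rw [← pow_add, Nat.add_sub_cancel' hik]
        rw [e1]
        have e2 : x G ^ (k - i) ≠ 0 := pow_ne_zero _ hxG
        have e3 : x G ^ i ≠ 0 := pow_ne_zero _ hxG
        field_simp
      rw [h7, h6, zero_div]
    have h8 := h3 M t (x F / x G) hrk' hrel'
    rw [hht] at h8
    have hm0 : (0 : ℝ) ≤ m := Nat.cast_nonneg m
    have hmN : (0 : ℝ) ≤ m * N := by positivity
    have h9 : (m * N + 1 : ℝ) * h ≤ 4 * (m * N + 1) * T := by nlinarith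
    calc logHeight₁ (x F / x G) ≤ m * (finrank ℚ M * (N * h)) + finrank ℚ M * C3 := h8
      _ = finrank ℚ M * (m * N * h + C3) := by ring
      _ ≤ finrank ℚ M * ((m * N + 1) * h) := by
          refine mul_le_mul_of_nonneg_left ?_ hM0.le
          linarith
      _ ≤ finrank ℚ M * (4 * (m * N + 1) * T) := mul_le_mul_of_nonneg_left h9 hM0.le
      _ = _ := by ring

end Pool.Agent.N751.LS
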